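import Pool.Agent.Helper73.SM.GoalsU

/-!
# Project CU (MP_c307ca_nt), packet UCR: Chinese remainder count
-/

set_option autoImplicit false

namespace Pool.Agent.Helper80.SM

open Finset Pool.Agent.Helper73.SM

theorem mod_prod_inj (S : Finset ℕ) (hS : ∀ p ∈ S, p.Prime) {a b : ℕ} (hab : a ≤ b)
    (hb : b < ∏ p ∈ S, p) (h : ∀ p ∈ S, a % p = b % p) : a = b := by
  have h1 : ∀ p ∈ S, p ∣ b - a := fun p hp ↦ (Nat.modEq_iff_dvd' hab).1 (h p hp)
  have h2 : ∏ p ∈ S, p ∣ b - a :=
    Finset.prod_primes_dvd _ (fun p hp ↦ (hS p hp).prime) h1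
  have h3 : b - a = 0 := Nat.eq_zero_of_dvd_of_lt h2 (by omega)
  omega

theorem goalUCR : StmtUCR := by
  classical
  intro X S E hS hX hE
  obtain ⟨m, hm⟩ : ∃ m, m = ∏ p ∈ S, p := ⟨_, rfl⟩
  have hm0 : 0 < m := by
    rw [hm]
    exact Finset.prod_pos fun p hp ↦ (hS p hp).pos
  rw [← hm] at hX
  -- the residues
  let R : Finset ℕ := (range m).filter fun a ↦ ∀ p ∈ S, E p a
  have hdvd : ∀ p ∈ S, p ∣ m := fun p hp ↦ by rw [hm]; exact Finset.dvd_prod_of_mem _ hp
  have hR : R.card ≤ ∏ p ∈ S, ((range p).filter fun a ↦ E p a).card := by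
    rw [← Finset.card_pi]
    refine Finset.card_le_card_of_injOn (fun a p _ ↦ a % p) ?_ ?_
    · intro a ha
      have ha' := mem_filter.1 (mem_coe.1 ha)
      rw [mem_coe, Finset.mem_pi]
      intro p hp
      rw [mem_filter, mem_range]
      exact ⟨Nat.mod_lt _ (hS p hp).pos, (hE p hp a).1 (ha'.2 p hp)⟩
    · intro a ha b hb hab
      have ha' := mem_filter.1 (mem_coe.1 ha)
      have hb' := mem_filter.1 (mem_coe.1 hb)
      have h : ∀ p ∈ S, a % p = b % p := fun p hp ↦ congrFun (congrFun hab p) hp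
      rw [mem_range, hm] at ha' hb'
      rcases le_total a b with hle | hle
      · exact mod_prod_inj S hS hle hb'.1 h
      · exact (mod_prod_inj S hS hle ha'.1 fun p hp ↦ (h p hp).symm).symm
  have hN : ((Ioc X (2 * X)).filter (fun N => ∀ p ∈ S, E p N)).card ≤ (X / m + 1) * R.card := by
    rw [← Finset.card_range (X / m + 1), ← Finset.card_product]
    refine Finset.card_le_card_of_injOn (fun N ↦ ((N - X - 1) / m, N % m)) ?_ ?_
    · intro N hN
      have h1 := mem_filter.1 (mem_coe.1 hN)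
      rw [mem_Ioc] at h1
      rw [mem_coe, Finset.mem_product, mem_range, mem_filter, mem_range]
      refine ⟨?_, Nat.mod_lt _ hm0, fun p hp ↦ ?_⟩
      · exact Nat.lt_succ_of_le (Nat.div_le_div_right (by omega))
      · rw [hE p hp, Nat.mod_mod_of_dvd _ (hdvd p hp), ← hE p hp]
        exact h1.2 p hp
    · intro N hN N' hN' h
      have h1 := mem_filter.1 (mem_coe.1 hN)
      have h2 := mem_filter.1 (mem_coe.1 hN')
      rw [mem_Ioc] at h1 h2
      simp only [Prod.mk.injEq] at h
      obtain ⟨e1, e2⟩ := h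
      have key : ∀ A B : ℕ, A ≤ B → X < A → (A - X - 1) / m = (B - X - 1) / m →
          A % m = B % m → A = B := by
        intro A B hAB hA q1 q2
        have d1 : m ∣ B - A := (Nat.modEq_iff_dvd' hAB).1 q2
        have d2 : B - A < m := by
          have a1 := Nat.div_add_mod (A - X - 1) m
          have a2 := Nat.div_add_mod (B - X - 1) m
          have a3 := Nat.mod_lt (B - X - 1) hm0
          rw [q1] at a1
          omega
        have d3 : B - A = 0 := Nat.eq_zero_of_dvd_of_lt d1 d2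
        omega
      rcases le_total N N' with hle | hle
      · exact key N N' hle h1.1.1 e1 e2
      · exact (key N' N hle h2.1.1 e1.symm e2.symm).symm
  have hprod : ∏ p ∈ S, ((((range p).filter (fun a => E p a)).card : ℝ) / p) =
      (∏ p ∈ S, (((range p).filter (fun a => E p a)).card : ℝ)) / m := by
    rw [Finset.prod_div_distrib, hm]
    push_cast
    rfl
  rw [hprod]
  have hm0' : (0 : ℝ) < m := by exact_mod_cast hm0
  have hXm : (((X / m : ℕ) : ℝ) + 1) ≤ 2 * X / m := by
    have h1 : ((X / m : ℕ) : ℝ) ≤ X / m := Nat.cast_div_le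
    have h2 : (1 : ℝ) ≤ X / m := by
      rw [le_div_iff₀ hm0', one_mul]
      exact_mod_cast hX
    calc ((X / m : ℕ) : ℝ) + 1 ≤ X / m + X / m := add_le_add h1 h2
      _ = 2 * X / m := by ring
  have hR' : (R.card : ℝ) ≤ ∏ p ∈ S, (((range p).filter (fun a => E p a)).card : ℝ) := by
    exact_mod_cast hR
  have hN' : ((((Ioc X (2 * X)).filter (fun N => ∀ p ∈ S, E p N)).card : ℕ) : ℝ) ≤
      (((X / m : ℕ) : ℝ) + 1) * R.card := by
    exact_mod_cast hN
  calc ((((Ioc X (2 * X)).filter (fun N => ∀ p ∈ S, E p N)).card : ℕ) : ℝ)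
      ≤ (((X / m : ℕ) : ℝ) + 1) * R.card := hN'
    _ ≤ (2 * X / m) * ∏ p ∈ S, (((range p).filter (fun a => E p a)).card : ℝ) :=
        mul_le_mul hXm hR' (by positivity) (by positivity)
    _ = 2 * X * ((∏ p ∈ S, (((range p).filter (fun a => E p a)).card : ℝ)) / m) := by ring

end Pool.Agent.Helper80.SM
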