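import Pool.Agent.Helper73.SM.GoalsU
import Pool.Agent.Helper60.SM.NV

/-!
# Project CU (MP_c307ca_nt), packet UDT: the determinant of consecutive approximants
-/

set_option autoImplicit false

namespace Pool.Agent.Helper80.SM

open Finset Polynomial Pool.Agent.Helper73.SM
open Pool.Agent.Helper60.SM (PP_coeff PP_deg PP_eval ff rem)

/-- The determinant of consecutive Padé approximants. -/
theorem pade_det (hS : StmtSAA) (hB : StmtBIN) (ν x : ℝ) (n : ℕ) :
    (PA ν n x * PB ν (n + 1) x - PA ν (n + 1) x * PB ν n x) * (n + 1) =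
      -(2 * ν * Ring.choose ((n : ℝ) + ν) n * Ring.choose ((n : ℝ) - ν) n) * x ^ (2 * n + 1) := by
  have e1 : PA ν n x = (Pool.Agent.Helper60.SM.PP ((n : ℝ) + ν) n).eval x := by rw [PP_eval]; rfl
  have e2 : PB ν n x = (Pool.Agent.Helper60.SM.PP ((n : ℝ) - ν) n).eval x := by rw [PP_eval]; rfl
  have e3 : PA ν (n + 1) x =
      (Pool.Agent.Helper60.SM.PP (((n + 1 : ℕ) : ℝ) + ν) (n + 1)).eval x := by rw [PP_eval]; rfl
  have e4 : PB ν (n + 1) x =
      (Pool.Agent.Helper60.SM.PP (((n + 1 : ℕ) : ℝ) - ν) (n + 1)).eval x := by rw [PP_eval]; rfl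
  rw [e1, e2, e3, e4, ← eval_mul, ← eval_mul, ← eval_sub]
  obtain ⟨A, hA⟩ : ∃ A, A = Pool.Agent.Helper60.SM.PP ((n : ℝ) + ν) n := ⟨_, rfl⟩
  obtain ⟨B, hBB⟩ : ∃ B, B = Pool.Agent.Helper60.SM.PP ((n : ℝ) - ν) n := ⟨_, rfl⟩
  obtain ⟨A', hA'⟩ : ∃ A, A = Pool.Agent.Helper60.SM.PP (((n + 1 : ℕ) : ℝ) + ν) (n + 1) :=
    ⟨_, rfl⟩
  obtain ⟨B', hB'⟩ : ∃ B, B = Pool.Agent.Helper60.SM.PP (((n + 1 : ℕ) : ℝ) - ν) (n + 1) :=
    ⟨_, rfl⟩
  rw [← hA, ← hBB, ← hA', ← hB']
  obtain ⟨κ, hκ⟩ : ∃ κ, κ = A.coeff n * B'.coeff (n + 1) - A'.coeff (n + 1) * B.coeff n :=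
    ⟨_, rfl⟩
  have dA : A.natDegree ≤ n := by rw [hA]; exact PP_deg _ _
  have dB : B.natDegree ≤ n := by rw [hBB]; exact PP_deg _ _
  have dA' : A'.natDegree ≤ n + 1 := by rw [hA']; exact PP_deg _ _
  have dB' : B'.natDegree ≤ n + 1 := by rw [hB']; exact PP_deg _ _
  have hE : A * B' - A' * B = monomial (2 * n + 1) κ := by
    ext m
    rw [coeff_monomial]
    rcases lt_trichotomy m (2 * n + 1) with h | h | h
    · rw [if_neg (by omega)]
      have h1 : (PowerSeries.X : PowerSeries ℝ) ^ (2 * n + 1) ∣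
          ((A * B' - A' * B : ℝ[X]) : PowerSeries ℝ) := by
        have r1 := rem hS ν n
        have r2 := rem hS ν (n + 1)
        rw [← hA, ← hBB] at r1
        rw [← hA', ← hB'] at r2
        have h2 : ((A * B' - A' * B : ℝ[X]) : PowerSeries ℝ) =
            ((A : PowerSeries ℝ) - (B : PowerSeries ℝ) * ff ν) * (B' : PowerSeries ℝ) -
            ((A' : PowerSeries ℝ) - (B' : PowerSeries ℝ) * ff ν) * (B : PowerSeries ℝ) := by
          push_cast
          ring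
        rw [h2]
        refine dvd_sub (Dvd.dvd.mul_right r1 _) (Dvd.dvd.mul_right ?_ _)
        exact (pow_dvd_pow _ (by omega)).trans r2
      have h3 := (PowerSeries.X_pow_dvd_iff.1 h1) m h
      rwa [Polynomial.coeff_coe] at h3
    · rw [if_pos h.symm, h, coeff_sub]
      have e5 : 2 * n + 1 = n + (n + 1) := by ring
      have e6 : 2 * n + 1 = (n + 1) + n := by ring
      have e7 : (A * B').coeff (2 * n + 1) = A.coeff n * B'.coeff (n + 1) := by
        rw [e5]; exact coeff_mul_add_eq_of_natDegree_le dA dB'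
      have e8 : (A' * B).coeff (2 * n + 1) = A'.coeff (n + 1) * B.coeff n := by
        rw [e6]; exact coeff_mul_add_eq_of_natDegree_le dA' dB
      rw [e7, e8, hκ]
    · rw [if_neg (by omega)]
      apply coeff_eq_zero_of_natDegree_lt
      have q1 : (A * B').natDegree ≤ 2 * n + 1 :=
        natDegree_mul_le.trans (by omega)
      have q2 : (A' * B).natDegree ≤ 2 * n + 1 :=
        natDegree_mul_le.trans (by omega)
      exact lt_of_le_of_lt (natDegree_sub_le_of_le q1 q2) (by simpa using h)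
  rw [hE, eval_monomial]
  have c1 : A.coeff n = Ring.choose ((n : ℝ) + ν) n := by
    rw [hA, PP_coeff, if_pos (by omega)]
    have : 2 * n - n = n := by omega
    rw [this, Nat.choose_self, Nat.cast_one, mul_one]
  have c2 : B.coeff n = Ring.choose ((n : ℝ) + -ν) n := by
    rw [hBB, PP_coeff, if_pos (by omega)]
    have : 2 * n - n = n := by omega
    rw [this, Nat.choose_self, Nat.cast_one, mul_one, sub_eq_add_neg]
  have c3 : A'.coeff (n + 1) = Ring.choose ((n : ℝ) + 1 + ν) (n + 1) := by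
    rw [hA', PP_coeff, if_pos (by omega)]
    have : 2 * (n + 1) - (n + 1) = n + 1 := by omega
    rw [this, Nat.choose_self, Nat.cast_one, mul_one]
    push_cast
    rfl
  have c4 : B'.coeff (n + 1) = Ring.choose ((n : ℝ) + 1 + -ν) (n + 1) := by
    rw [hB', PP_coeff, if_pos (by omega)]
    have : 2 * (n + 1) - (n + 1) = n + 1 := by omega
    rw [this, Nat.choose_self, Nat.cast_one, mul_one]
    push_cast
    rfl
  have r1 := hB.recu ν n
  have r2 := hB.recu (-ν) n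
  rw [← c1] at r1
  rw [← c2] at r2
  rw [← c3] at r1
  rw [← c4] at r2
  have h1 : κ * (n + 1) = -(2 * ν * A.coeff n * B.coeff n) := by
    linear_combination (n + 1 : ℝ) * hκ + A.coeff n * r2 - B.coeff n * r1
  rw [c1, c2, ← sub_eq_add_neg] at h1
  rw [← h1]
  ring

theorem goalUDT (hS : StmtSAA) (hB : StmtBIN) (hU : StmtUCZ) : StmtUDT := by
  have third : ((1 : ℤ) : ℝ) / 3 = 1 / 3 := by norm_num
  have cz1 : ∀ n : ℕ, (cz 1 n n : ℝ) = 9 ^ n * Ring.choose ((n : ℝ) + 1 / 3) n := fun n ↦ by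
    rw [hU.cast, third]
  have cz2 : ∀ n : ℕ, (cz (-1) n n : ℝ) = 9 ^ n * Ring.choose ((n : ℝ) - 1 / 3) n := fun n ↦ by
    rw [hU.cast]
    congr 2
    push_cast
    ring
  -- the determinant
  have hdet : ∀ n N : ℕ, 1 ≤ N →
      (PZ 1 (n + 1) N * PZ (-1) n N - PZ 1 n N * PZ (-1) (n + 1) N) * ((n : ℤ) + 1) =
        6 * cz 1 n n * cz (-1) n n := by
    intro n N hN
    have h := pade_det hS hB (1 / 3) (1 / (N : ℝ)) n
    have hN0 : (N : ℝ) ≠ 0 := by
      have : (1 : ℝ) ≤ N := by exact_mod_cast hN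
      positivity
    have a1 := hU.pa n N hN
    have a2 := hU.pa (n + 1) N hN
    have b1 := hU.pb n N hN
    have b2 := hU.pb (n + 1) N hN
    have hreal : (((PZ 1 (n + 1) N * PZ (-1) n N - PZ 1 n N * PZ (-1) (n + 1) N) *
        ((n : ℤ) + 1) : ℤ) : ℝ) = ((6 * cz 1 n n * cz (-1) n n : ℤ) : ℝ) := by
      push_cast
      rw [a1, a2, b1, b2, cz1, cz2]
      have e1 : (9 * (N : ℝ)) ^ (n + 1) * PA (1 / 3) (n + 1) (1 / (N : ℝ)) *
            ((9 * (N : ℝ)) ^ n * PB (1 / 3) n (1 / (N : ℝ))) -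
          (9 * (N : ℝ)) ^ n * PA (1 / 3) n (1 / (N : ℝ)) *
            ((9 * (N : ℝ)) ^ (n + 1) * PB (1 / 3) (n + 1) (1 / (N : ℝ))) =
          -((9 * (N : ℝ)) ^ (2 * n + 1) * (PA (1 / 3) n (1 / (N : ℝ)) *
            PB (1 / 3) (n + 1) (1 / (N : ℝ)) - PA (1 / 3) (n + 1) (1 / (N : ℝ)) *
            PB (1 / 3) n (1 / (N : ℝ)))) := by ring
      rw [e1]
      have e2 : ∀ D : ℝ, -((9 * (N : ℝ)) ^ (2 * n + 1) * D) * ((n : ℝ) + 1) =
          -((9 * (N : ℝ)) ^ (2 * n + 1)) * (D * ((n : ℝ) + 1)) := fun D ↦ by ring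
      rw [e2, h]
      have e3 : (9 * (N : ℝ)) ^ (2 * n + 1) * (1 / (N : ℝ)) ^ (2 * n + 1) = 9 ^ (2 * n + 1) := by
        rw [← mul_pow]
        congr 1
        field_simp
      have e4 : (9 : ℝ) ^ (2 * n + 1) = 9 * (9 ^ n * 9 ^ n) := by ring
      rw [e4] at e3
      linear_combination (2 * (1 / 3 : ℝ) * Ring.choose ((n : ℝ) + 1 / 3) n *
        Ring.choose ((n : ℝ) - 1 / 3) n) * e3
    exact_mod_cast hreal
  have hn0 : ∀ n : ℕ, ((n : ℤ) + 1) ≠ 0 := fun n ↦ by positivity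
  have hdet' : ∀ n N : ℕ, 1 ≤ N →
      PZ 1 (n + 1) N * PZ (-1) n N - PZ 1 n N * PZ (-1) (n + 1) N = DD n := by
    intro n N hN
    unfold DD
    rw [← hdet n N hN, Int.mul_ediv_cancel _ (hn0 n)]
  have hmul : ∀ n : ℕ, DD n * ((n : ℤ) + 1) = 6 * cz 1 n n * cz (-1) n n := by
    intro n
    have := hdet n 1 le_rfl
    rw [hdet' n 1 le_rfl] at this
    exact this
  have hcz1 : ∀ n : ℕ, (0 : ℝ) < cz 1 n n := fun n ↦ by
    rw [cz1]
    have := hB.npos (1 / 3) n (by norm_num) (by norm_num)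
    positivity
  have hcz2 : ∀ n : ℕ, (0 : ℝ) < cz (-1) n n := fun n ↦ by
    rw [cz2]
    have := hB.npos (-(1 / 3)) n (by norm_num) (by norm_num)
    rw [← sub_eq_add_neg] at this
    positivity
  have hmulr : ∀ n : ℕ, (DD n : ℝ) * ((n : ℝ) + 1) = 6 * cz 1 n n * cz (-1) n n := fun n ↦ by
    exact_mod_cast hmul n
  refine ⟨hdet', hmul, fun n ↦ ?_, fun n ↦ ?_⟩
  · have h1 : (0 : ℝ) < (DD n : ℝ) * ((n : ℝ) + 1) := by
      rw [hmulr]
      have := hcz1 n
      have := hcz2 n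
      positivity
    have h2 : (0 : ℝ) < DD n := by
      have h3 : (0 : ℝ) < (n : ℝ) + 1 := by positivity
      exact (pos_iff_pos_of_mul_pos h1).2 h3
    have h3 : 0 < DD n := by exact_mod_cast h2
    omega
  · have h1 : (cz 1 n n : ℝ) ≤ 9 ^ n * ((n : ℝ) + 1) := by
      rw [cz1]
      have h2 := hB.le (2 / 3) (n + 1) n (by norm_num) (by norm_num) (by omega)
      have e : ((n + 1 : ℕ) : ℝ) - 2 / 3 = (n : ℝ) + 1 / 3 := by push_cast; ring
      rw [e, Nat.choose_succ_self_right] at h2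
      push_cast at h2
      exact mul_le_mul_of_nonneg_left h2 (by positivity)
    have h2 : (cz (-1) n n : ℝ) ≤ 9 ^ n := by
      rw [cz2]
      have h2 := hB.le (1 / 3) n n (by norm_num) (by norm_num) le_rfl
      rw [Nat.choose_self, Nat.cast_one] at h2
      calc (9 : ℝ) ^ n * Ring.choose ((n : ℝ) - 1 / 3) n ≤ 9 ^ n * 1 :=
            mul_le_mul_of_nonneg_left h2 (by positivity)
        _ = 9 ^ n := mul_one _
    have h3 : (0 : ℝ) < (n : ℝ) + 1 := by positivity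
    have h4 : (DD n : ℝ) * ((n : ℝ) + 1) ≤ 6 * 81 ^ n * ((n : ℝ) + 1) := by
      rw [hmulr]
      calc 6 * (cz 1 n n : ℝ) * cz (-1) n n ≤ 6 * (9 ^ n * ((n : ℝ) + 1)) * 9 ^ n :=
            mul_le_mul (mul_le_mul_of_nonneg_left h1 (by norm_num)) h2 (hcz2 n).le
              (by positivity)
        _ = 6 * (9 * 9 : ℝ) ^ n * ((n : ℝ) + 1) := by rw [mul_pow]; ring
        _ = 6 * 81 ^ n * ((n : ℝ) + 1) := by norm_num
    exact le_of_mul_le_mul_right h4 h3

end Pool.Agent.Helper80.SM
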