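import Pool.Agent.Helper73.SM.GoalsU

/-!
# Project CU (MP_c307ca_nt), packet USZ: sizes of the approximants
-/

set_option autoImplicit false

namespace Pool.Agent.Helper80.SM

open Finset Pool.Agent.Helper73.SM

theorem centralBinom_succ_le (n : ℕ) : Nat.centralBinom (n + 1) ≤ 4 * Nat.centralBinom n := by
  have h := Nat.succ_mul_centralBinom_succ n
  have h1 : (n + 1) * Nat.centralBinom (n + 1) ≤ (n + 1) * (4 * Nat.centralBinom n) := by
    rw [h]
    have : 2 * (2 * n + 1) * n.centralBinom ≤ 2 * (2 * n + 2) * n.centralBinom :=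
      Nat.mul_le_mul_right _ (by omega)
    refine this.trans (le_of_eq ?_)
    ring
  exact Nat.le_of_mul_le_mul_left h1 (Nat.succ_pos n)

theorem PB_ge (hB : StmtBIN) (n : ℕ) (x : ℝ) (hx : 0 ≤ x) :
    (Nat.centralBinom n : ℝ) ≤ PB (1 / 3) n x := by
  unfold PB
  have h0 : (0 : ℕ) ∈ range (n + 1) := mem_range.2 (by omega)
  refine le_trans ?_ (Finset.single_le_sum (fun j hj ↦ ?_) h0)
  · rw [Ring.choose_zero_right, one_mul, pow_zero, mul_one, Nat.sub_zero, Nat.centralBinom]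
  · have hj' : j ≤ n := by
      have := mem_range.1 hj
      omega
    have := hB.pos (1 / 3) n j (by norm_num) (by norm_num) hj'
    positivity

theorem PB_le (hB : StmtBIN) (n : ℕ) (x : ℝ) (hx : 0 ≤ x) :
    PB (1 / 3) n x ≤ Nat.centralBinom n * (1 + x) ^ n := by
  unfold PB
  rw [add_comm (1 : ℝ) x, add_pow, Finset.mul_sum]
  refine Finset.sum_le_sum fun j hj ↦ ?_
  have hj' : j ≤ n := by
    have := mem_range.1 hj
    omega
  have h1 := hB.le (1 / 3) n j (by norm_num) (by norm_num) hj'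
  have h2 : (((2 * n - j).choose n : ℕ) : ℝ) ≤ (Nat.centralBinom n : ℝ) := by
    rw [Nat.centralBinom]
    exact_mod_cast Nat.choose_le_choose n (Nat.sub_le _ _)
  rw [one_pow, mul_one]
  calc Ring.choose ((n : ℝ) - 1 / 3) j * ((2 * n - j).choose n : ℝ) * x ^ j
      ≤ (n.choose j : ℝ) * (Nat.centralBinom n : ℝ) * x ^ j :=
        mul_le_mul_of_nonneg_right (mul_le_mul h1 h2 (by positivity) (by positivity))
          (by positivity)
    _ = (Nat.centralBinom n : ℝ) * (x ^ j * (n.choose j : ℝ)) := by ring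

theorem goalUSZ (hU : StmtUCZ) (hR : StmtREM) (hB : StmtBIN) : StmtUSZ := by
  have key : ∀ n N : ℕ, 2 ≤ N → 1 ≤ PB (1 / 3) n (1 / (N : ℝ)) ∧
      PB (1 / 3) n (1 / (N : ℝ)) ≤ 8 ^ n ∧
      |PA (1 / 3) n (1 / (N : ℝ)) - (1 + 1 / (N : ℝ)) ^ ((1 : ℝ) / 3) *
        PB (1 / 3) n (1 / (N : ℝ))| ≤ 8 ^ n * (2 * (1 / (N : ℝ)) ^ (2 * n + 1)) := by
    intro n N hN
    have hN' : (2 : ℝ) ≤ N := by exact_mod_cast hN
    refine hR (1 / 3) (1 / (N : ℝ)) n (by norm_num) (by norm_num) (by positivity) ?_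
    rw [div_le_div_iff₀ (by linarith) (by norm_num)]
    linarith
  refine ⟨fun n N hN ↦ ?_, fun n N hN ↦ ?_, fun n N hN ↦ ?_, fun n N hN h2 ↦ ?_⟩
  · have h := hU.pb n N (by omega)
    have hN' : (2 : ℝ) ≤ N := by exact_mod_cast hN
    have h1 : (1 : ℝ) ≤ (9 * (N : ℝ)) ^ n := one_le_pow₀ (by linarith)
    have h2 : (1 : ℝ) ≤ (PZ (-1) n (N : ℤ) : ℝ) := by
      rw [h]
      calc (1 : ℝ) = 1 * 1 := (mul_one 1).symm
        _ ≤ _ := mul_le_mul h1 (key n N hN).1 (by norm_num) (by positivity)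
    exact_mod_cast h2
  · rw [hU.pb n N (by omega)]
    have hN' : (2 : ℝ) ≤ N := by exact_mod_cast hN
    calc (9 * (N : ℝ)) ^ n * PB (1 / 3) n (1 / (N : ℝ)) ≤ (9 * (N : ℝ)) ^ n * 8 ^ n :=
          mul_le_mul_of_nonneg_left (key n N hN).2.1 (by positivity)
      _ = (72 * (N : ℝ)) ^ n := by
          rw [← mul_pow]
          congr 1
          ring
  · rw [hU.pb n N (by omega), hU.pa n N (by omega)]
    have hN' : (2 : ℝ) ≤ N := by exact_mod_cast hN
    have hN0 : (N : ℝ) ≠ 0 := by positivity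
    have e1 : (9 * (N : ℝ)) ^ n * PA (1 / 3) n (1 / (N : ℝ)) -
        xi N * ((9 * (N : ℝ)) ^ n * PB (1 / 3) n (1 / (N : ℝ))) =
        (9 * (N : ℝ)) ^ n * (PA (1 / 3) n (1 / (N : ℝ)) -
          xi N * PB (1 / 3) n (1 / (N : ℝ))) := by ring
    rw [e1, abs_mul, abs_of_nonneg (by positivity)]
    have h := (key n N hN).2.2
    calc (9 * (N : ℝ)) ^ n * |PA (1 / 3) n (1 / (N : ℝ)) - xi N * PB (1 / 3) n (1 / (N : ℝ))|
        ≤ (9 * (N : ℝ)) ^ n * (8 ^ n * (2 * (1 / (N : ℝ)) ^ (2 * n + 1))) :=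
          mul_le_mul_of_nonneg_left h (by positivity)
      _ = 2 / (N : ℝ) * ((9 * (N : ℝ)) * 8 * ((1 / (N : ℝ)) * (1 / (N : ℝ)))) ^ n := by
          have e2 : (1 / (N : ℝ)) ^ (2 * n + 1) =
              (1 / (N : ℝ)) * ((1 / (N : ℝ)) * (1 / (N : ℝ))) ^ n := by
            rw [pow_succ, pow_mul, sq, mul_comm]
          have e3 : ∀ a b c : ℝ, a * (b * (2 * ((1 / (N : ℝ)) * c))) = 2 / (N : ℝ) * (a * b * c) :=
            fun a b c ↦ by ring
          rw [e2, e3, ← mul_pow, ← mul_pow]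
      _ = 2 / (N : ℝ) * (72 / (N : ℝ)) ^ n := by
          congr 2
          field_simp
          ring
  · rw [hU.pb n N (by omega), hU.pb (n + 1) N (by omega)]
    have hN' : (2 : ℝ) ≤ N := by exact_mod_cast hN
    have hx : (0 : ℝ) ≤ 1 / (N : ℝ) := by positivity
    have h3 := PB_le hB (n + 1) (1 / (N : ℝ)) hx
    have h4 := PB_ge hB n (1 / (N : ℝ)) hx
    have h5 : (Nat.centralBinom (n + 1) : ℝ) ≤ 4 * Nat.centralBinom n := by
      exact_mod_cast centralBinom_succ_le n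
    have h6 : PB (1 / 3) (n + 1) (1 / (N : ℝ)) ≤ 8 * PB (1 / 3) n (1 / (N : ℝ)) := by
      calc PB (1 / 3) (n + 1) (1 / (N : ℝ)) ≤
          Nat.centralBinom (n + 1) * (1 + 1 / (N : ℝ)) ^ (n + 1) := h3
        _ ≤ (4 * Nat.centralBinom n) * 2 := mul_le_mul h5 h2 (by positivity) (by positivity)
        _ = 8 * Nat.centralBinom n := by ring
        _ ≤ 8 * PB (1 / 3) n (1 / (N : ℝ)) := mul_le_mul_of_nonneg_left h4 (by norm_num)
    calc (9 * (N : ℝ)) ^ (n + 1) * PB (1 / 3) (n + 1) (1 / (N : ℝ))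
        ≤ (9 * (N : ℝ)) ^ (n + 1) * (8 * PB (1 / 3) n (1 / (N : ℝ))) :=
          mul_le_mul_of_nonneg_left h6 (by positivity)
      _ = 72 * N * ((9 * (N : ℝ)) ^ n * PB (1 / 3) n (1 / (N : ℝ))) := by ring

end Pool.Agent.Helper80.SM
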