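import Pool.Agent.Helper73.SM.GoalsU

/-!
# Project CU (MP_c307ca_nt), packet UVL: the value of a reduced approximant
-/

set_option autoImplicit false

namespace Pool.Agent.Helper80.SM

open Finset Pool.Agent.Helper73.SM

theorem one_add_pow_le_two {N n : ℕ} (hN : 1000 ≤ N) (h : (72 : ℝ) ^ (2 * n) ≤ N) :
    (1 + 1 / (N : ℝ)) ^ (n + 1) ≤ 2 := by
  have hN' : (1000 : ℝ) ≤ N := by exact_mod_cast hN
  have h1 : 2 * ((n : ℝ) + 1) ≤ N := by
    rcases Nat.eq_zero_or_pos n with rfl | hn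
    · push_cast
      linarith
    · obtain ⟨m, rfl⟩ := Nat.exists_eq_succ_of_ne_zero hn.ne'
      refine le_trans ?_ h
      have h2 : (m : ℝ) + 1 ≤ 2 ^ m := by
        have := (Nat.lt_two_pow_self : m < 2 ^ m)
        exact_mod_cast this
      have h3 : (2 : ℝ) ^ m ≤ 72 ^ (2 * m) := by
        rw [pow_mul]
        exact pow_le_pow_left₀ (by norm_num) (by norm_num) m
      have h4 : (72 : ℝ) ^ (2 * m.succ) = 5184 * 72 ^ (2 * m) := by
        rw [Nat.succ_eq_add_one]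
        ring
      have h5 : (1 : ℝ) ≤ 72 ^ (2 * m) := one_le_pow₀ (by norm_num)
      rw [h4]
      push_cast
      linarith
  have hN0 : (0 : ℝ) < N := by linarith
  have h2 : (1 + 1 / (N : ℝ)) ≤ Real.exp (1 / N) := by
    rw [add_comm]
    exact Real.add_one_le_exp _
  calc (1 + 1 / (N : ℝ)) ^ (n + 1) ≤ Real.exp (1 / N) ^ (n + 1) :=
        pow_le_pow_left₀ (by positivity) h2 _
    _ = Real.exp (((n + 1 : ℕ) : ℝ) * (1 / N)) := (Real.exp_nat_mul _ _).symm
    _ ≤ Real.exp (1 / 2) := by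
        apply Real.exp_le_exp.2
        push_cast
        rw [mul_one_div, div_le_div_iff₀ hN0 (by norm_num)]
        linarith
    _ ≤ 2 := by
        have h3 : Real.exp (1 / 2) ^ 2 = Real.exp 1 := by
          rw [← Real.exp_nat_mul]
          norm_num
        have h4 := Real.exp_one_lt_d9
        have h5 : Real.exp (1 / 2) ^ 2 ≤ 2 ^ 2 := by
          rw [h3]
          linarith
        exact le_of_sq_le_sq h5 (by norm_num)

theorem goalUVL (hU : StmtUSZ) (hD : StmtUDT) : StmtUVL := by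
  intro N n P R hN h72 hR hcop hPR
  have hN2 : 2 ≤ N := by omega
  have hN' : (1000 : ℝ) ≤ N := by exact_mod_cast hN
  have hN0 : (0 : ℝ) < N := by linarith
  obtain ⟨q, hq⟩ : ∃ q, q = PZ (-1) n (N : ℤ) := ⟨_, rfl⟩
  obtain ⟨p, hp⟩ : ∃ p, p = PZ 1 n (N : ℤ) := ⟨_, rfl⟩
  obtain ⟨q', hq'⟩ : ∃ q, q = PZ (-1) (n + 1) (N : ℤ) := ⟨_, rfl⟩
  obtain ⟨p', hp'⟩ : ∃ p, p = PZ 1 (n + 1) (N : ℤ) := ⟨_, rfl⟩
  have hq1 := hU.pos n N hN2
  have hq'1 := hU.pos (n + 1) N hN2
  have hqle := hU.le n N hN2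
  have hrem := hU.rem (n + 1) N hN2
  have hstep := hU.step n N hN2 (one_add_pow_le_two hN h72)
  have hdet := hD.det n N (by omega)
  have hD1 := hD.pos n
  rw [← hq] at hq1 hqle hstep hdet hPR
  rw [← hp] at hdet hPR
  rw [← hq'] at hq'1 hrem hstep hdet
  rw [← hp'] at hrem hdet
  have hR0 : (0 : ℤ) < R := by exact_mod_cast hR
  -- `q = R g`, `p = P g`
  obtain ⟨g, hg⟩ : (R : ℤ) ∣ q := by
    have h1 : (R : ℤ) ∣ P * q := ⟨p, hPR⟩
    exact (hcop.symm).dvd_of_dvd_mul_left h1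
  have hpg : p = P * g := by
    rw [hg] at hPR
    have h1 : (R : ℤ) * (P * g) = R * p := by linarith
    exact (mul_left_cancel₀ hR0.ne' h1).symm
  have hg0 : 0 < g := by
    rw [hg] at hq1
    exact (pos_iff_pos_of_mul_pos (show 0 < (R : ℤ) * g by omega)).1 hR0
  have hGG : (GG n (N : ℤ) : ℤ) = g := by
    unfold GG
    rw [← hp, ← hq, hpg, hg, Int.gcd_mul_right, Int.isCoprime_iff_gcd_eq_one.1 hcop, one_mul]
    exact Int.natAbs_of_nonneg hg0.le
  have hGGr : (GG n (N : ℤ) : ℝ) = (g : ℝ) := by exact_mod_cast hGG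
  rw [hGGr]
  have hgr : (0 : ℝ) < g := by exact_mod_cast hg0
  -- the real inequality
  have hdetr : (DD n : ℝ) = q * (p' - xi N * q') - q' * (p - xi N * q) := by
    have : (DD n : ℝ) = (p' : ℝ) * q - p * q' := by exact_mod_cast hdet.symm
    rw [this]
    ring
  have hD1r : (1 : ℝ) ≤ DD n := by exact_mod_cast hD1
  have hqr : (0 : ℝ) < q := by
    have : 0 < q := by omega
    exact_mod_cast this
  have hq'r : (0 : ℝ) < q' := by
    have : 0 < q' := by omega
    exact_mod_cast this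
  have hb : |(q : ℝ) * (p' - xi N * q')| ≤ 1 / 2 := by
    rw [abs_mul, abs_of_pos hqr]
    calc (q : ℝ) * |(p' : ℝ) - xi N * q'| ≤
        (72 * (N : ℝ)) ^ n * (2 / (N : ℝ) * (72 / (N : ℝ)) ^ (n + 1)) :=
          mul_le_mul hqle hrem (abs_nonneg _) (by positivity)
      _ = 144 / (N : ℝ) ^ 2 * ((72 * (N : ℝ)) * (72 / (N : ℝ))) ^ n := by
          have e3 : ∀ a b : ℝ, a * (2 / (N : ℝ) * (b * (72 / (N : ℝ)))) =
              144 / (N : ℝ) ^ 2 * (a * b) := fun a b ↦ by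
            field_simp
            ring
          rw [pow_succ, e3, ← mul_pow]
      _ = 144 / (N : ℝ) ^ 2 * 72 ^ (2 * n) := by
          have e4 : (72 * (N : ℝ)) * (72 / (N : ℝ)) = 72 ^ 2 := by
            field_simp
          rw [pow_mul, e4]
      _ ≤ 144 / (N : ℝ) ^ 2 * N := mul_le_mul_of_nonneg_left h72 (by positivity)
      _ = 144 / N := by
          field_simp
      _ ≤ 1 / 2 := by
          rw [div_le_div_iff₀ hN0 (by norm_num)]
          linarith
  have hmain : (DD n : ℝ) / 2 ≤ q' * |(p : ℝ) - xi N * q| := by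
    have h1 : (q' : ℝ) * (p - xi N * q) = q * (p' - xi N * q') - DD n := by
      rw [hdetr]
      ring
    have h2 : (q' : ℝ) * |(p : ℝ) - xi N * q| = |(q : ℝ) * (p' - xi N * q') - DD n| := by
      rw [← h1, abs_mul, abs_of_pos hq'r]
    rw [h2]
    have h3 := abs_le.1 hb
    have h4 : (DD n : ℝ) / 2 ≤ -((q : ℝ) * (p' - xi N * q') - DD n) := by linarith [h3.2]
    exact h4.trans (neg_le_abs _)
  have hfac : (p : ℝ) - xi N * q = g * (P - xi N * R) := by
    have e1 : (p : ℝ) = P * g := by exact_mod_cast hpg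
    have e2 : (q : ℝ) = R * g := by exact_mod_cast hg
    rw [e1, e2]
    ring
  have hqg : (q : ℝ) = R * g := by exact_mod_cast hg
  have hfin : (DD n : ℝ) / 2 ≤ 72 * N * (R * g) * (g * |(P : ℝ) - xi N * R|) := by
    refine hmain.trans ?_
    rw [hfac, abs_mul, abs_of_pos hgr, ← hqg]
    exact mul_le_mul_of_nonneg_right hstep (by positivity)
  rw [div_le_iff₀ (by positivity)]
  calc (DD n : ℝ) = 2 * ((DD n : ℝ) / 2) := by ring
    _ ≤ 2 * (72 * N * (R * g) * (g * |(P : ℝ) - xi N * R|)) :=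
        mul_le_mul_of_nonneg_left hfin (by norm_num)
    _ = (R : ℝ) * |(P : ℝ) - xi N * R| * (144 * N * (g : ℝ) ^ 2) := by ring

end Pool.Agent.Helper80.SM
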